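import Pool.Agent.Helper774.PosCases2

/-!
# Property (D) of the diagonal matrices whose numerical range is a triangle
-/

set_option autoImplicit false

open Matrix
open scoped ComplexOrder

namespace Pool.Agent.K3h25.ND

open Pool.Agent.Helper774

/-- the values of a diagonal matrix are convex combinations of its entries -/
theorem MW_diag {ι : Type} [Fintype ι] [DecidableEq ι] (lam : ι → ℂ) (S : Set ℂ)
    (hS : Convex ℝ S) (h : ∀ i, lam i ∈ S) : MW (diagonal lam) ⊆ S := by
  rintro z ⟨x, hx, rfl⟩
  have h1 : ∑ i, ‖x i‖ ^ 2 = 1 := by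
    rw [dot_self_eq] at hx
    exact_mod_cast hx
  have h2 : star x ⬝ᵥ (diagonal lam *ᵥ x) = ∑ i, (‖x i‖ ^ 2 : ℝ) • lam i := by
    unfold dotProduct
    refine Finset.sum_congr rfl fun i _ => ?_
    rw [mulVec_diagonal, Pi.star_apply, Complex.real_smul]
    have h3 : star (x i) * x i = ((‖x i‖ ^ 2 : ℝ) : ℂ) := by
      rw [Complex.star_def, Complex.conj_mul']
      push_cast
      rfl
    rw [← h3]
    ring
  rw [h2]
  exact hS.sum_mem (fun i _ => by positivity) h1 fun i _ => h i

theorem dil {n : ℕ} {ν : Type} [DecidableEq ν] (lam : Fin n → ℂ) (σ : Fin 3 → Fin n)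
    (T : Matrix ν ν ℂ) (h : FinDil (diagonal (fun j => lam (σ j))) T) :
    FinDil (diagonal lam) T := by
  obtain ⟨N, R, h1, h2⟩ := h
  have key1 : ∀ (p : Fin N) (a b : ν), ∑ j, starRingEnd ℂ (R p j a) * R p j b =
      ∑ j, ∑ i, starRingEnd ℂ (if i = σ j then R p j a else 0) *
        (if i = σ j then R p j b else 0) := by
    intro p a b
    refine Finset.sum_congr rfl fun j _ => ?_
    rw [Finset.sum_eq_single (σ j)]
    · rw [if_pos rfl, if_pos rfl]
    · intro i _ hi
      rw [if_neg hi, if_neg hi, mul_zero]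
    · intro hn
      exact absurd (Finset.mem_univ _) hn
  have key2 : ∀ (p : Fin N) (a b : ν), ∑ i, ∑ j, diagonal (fun j => lam (σ j)) i j *
      (starRingEnd ℂ (R p i a) * R p j b) =
      ∑ j, ∑ i, ∑ k, diagonal lam i k * (starRingEnd ℂ (if i = σ j then R p j a else 0) *
        (if k = σ j then R p j b else 0)) := by
    intro p a b
    refine Finset.sum_congr rfl fun j _ => ?_
    rw [Finset.sum_eq_single j, diagonal_apply_eq, Finset.sum_eq_single (σ j),
      Finset.sum_eq_single (σ j), diagonal_apply_eq, if_pos rfl, if_pos rfl]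
    · intro i _ hi
      rw [if_neg hi, mul_zero, mul_zero]
    · intro hn
      exact absurd (Finset.mem_univ _) hn
    · intro i _ hi
      refine Finset.sum_eq_zero fun k _ => ?_
      rw [if_neg hi, map_zero, zero_mul, mul_zero]
    · intro hn
      exact absurd (Finset.mem_univ _) hn
    · intro i _ hi
      rw [diagonal_apply_ne _ (Ne.symm hi), zero_mul]
    · intro hn
      exact absurd (Finset.mem_univ _) hn
  refine FinDil.of_fintype (μ := Fin N × Fin 3)
    (fun q i a => if i = σ q.2 then R q.1 q.2 a else 0) ?_ ?_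
  · intro a b
    rw [← h1 a b, Fintype.sum_prod_type]
    exact Finset.sum_congr rfl fun p _ => (key1 p a b).symm
  · intro a b
    rw [← h2 a b, Fintype.sum_prod_type]
    exact Finset.sum_congr rfl fun p _ => (key2 p a b).symm

theorem pos {n : ℕ} (lam : Fin n → ℂ) (a b c : Fin n)
    (h : ∀ i, lam i ∈ convexHull ℝ {lam a, lam b, lam c}) : FinPropD (diagonal lam) := by
  set σ : Fin 3 → Fin n := ![a, b, c] with hσ
  set μ : Fin 3 → ℂ := fun j => lam (σ j) with hμ
  have hP : FinPropD (diagonal μ) := by
    refine finPropD_reducible (diagonal μ) (Pi.single 0 1) ?_ (μ 0) (star (μ 0)) ?_ ?_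
    · intro h0
      have := congrFun h0 0
      simp at this
    · rw [mulVec_single_one]
      funext i
      rw [Pi.smul_apply, smul_eq_mul, Matrix.col_apply]
      by_cases hi : i = 0
      · subst hi
        simp
      · rw [diagonal_apply_ne _ hi, Pi.single_eq_of_ne hi, mul_zero]
    · rw [diagonal_conjTranspose, mulVec_single_one]
      funext i
      rw [Pi.smul_apply, smul_eq_mul, Matrix.col_apply]
      by_cases hi : i = 0
      · subst hi
        simp
      · rw [diagonal_apply_ne _ hi, Pi.single_eq_of_ne hi, mul_zero]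
  have hmem : ∀ j, μ j ∈ MW (diagonal μ) := by
    intro j
    refine ⟨Pi.single j 1, ?_, ?_⟩
    · simp
    · rw [mulVec_single_one, ← Pi.single_star, star_one, single_one_dotProduct, Matrix.col_apply,
        diagonal_apply_eq]
  have hsub : MW (diagonal lam) ⊆ MW (diagonal μ) := by
    refine MW_diag lam _ (MW_convex _) fun i => ?_
    refine convexHull_min ?_ (MW_convex _) (h i)
    rintro z (rfl | rfl | rfl)
    · exact hmem 0
    · exact hmem 1
    · exact hmem 2
  intro m T hT
  exact dil lam σ T (hP m T (hT.trans hsub))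

end Pool.Agent.K3h25.ND
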